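import Pool.Agent.Helper88.GU.St

/-!
# Project GU2, module VC: cutting
-/

set_option autoImplicit false

namespace Pool.Agent.Helper95.GU2

open Pool.Agent.Helper88.GU

universe u

/-- cutting by an element outside the minimal primes of the region raises the height -/
theorem hVC : StVC.{u} := by
  intro E _ J y t Rg hmono hmin hht P hP hJ hRg hy
  obtain ⟨Q, hQmin, hQP⟩ := Ideal.exists_minimalPrimes_le hJ
  have hQ : Q.IsPrime := hQmin.1.1
  have hJQ : J ≤ Q := hQmin.1.2
  have hRgQ : Rg Q := hmono Q P hQP hRg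
  have hyQ : y ∉ Q := hmin Q hQmin hRgQ
  have hlt : Q < P := lt_of_le_of_ne hQP (fun h => hyQ (h ▸ hy))
  have h1 : (t : ℕ∞) ≤ Q.height := hht Q hQ hJQ hRgQ
  have h2 : Q.height + 1 ≤ P.height := Ideal.height_add_one_le_of_lt_of_isPrime hlt
  calc ((t + 1 : ℕ) : ℕ∞) = (t : ℕ∞) + 1 := by push_cast; rfl
    _ ≤ Q.height + 1 := by gcongr
    _ ≤ P.height := h2

end Pool.Agent.Helper95.GU2
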