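import Pool.Agent.Helper88.GU.St

/-!
# Project GU2, module WC: an element of `J ∩ 𝔨A` with a good top coefficient
-/

set_option autoImplicit false

namespace Pool.Agent.Helper95.GU2

open Polynomial
open Pool.Agent.Helper88.GU

universe u

/-- one prime -/
theorem wc_one (R A : Type u) [CommRing R] [CommRing A] [Algebra R A] (G : Gr A) (m : ℕ)
    (x : Fin m → A) (e : Fin m → ℕ) (h : SGr R A G x e) (𝔨 : Ideal R) (J : Ideal A)
    (𝔤 : Ideal A) (hp : 𝔤.IsPrime) (hx : ∃ l, x l ∉ 𝔤)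
    (hk : ¬ 𝔨 ≤ 𝔤.comap (algebraMap R A)) (hT : ¬ Tops G J 𝔤) :
    ∃ N0 : ℕ, ∀ M ≥ N0, ∃ F ∈ J, F ∈ 𝔨.map (algebraMap R A) ∧
      (G.Γ F).natDegree ≤ (∏ l, e l) * M ∧ (G.Γ F).coeff ((∏ l, e l) * M) ∉ 𝔤 := by
  obtain ⟨l, hl⟩ := hx
  obtain ⟨κ, hκ, hκ'⟩ := SetLike.not_le_iff_exists.1 hk
  rw [Ideal.mem_comap] at hκ'
  unfold Tops at hT
  push Not at hT
  obtain ⟨f, hf, N, hN, hc⟩ := hT
  refine ⟨N, fun M hM => ?_⟩
  set E := ∏ l, e l with hE
  obtain ⟨q, hq⟩ : e l ∣ E := Finset.dvd_prod_of_mem e (Finset.mem_univ l)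
  have hEpos : E ≠ 0 := by
    rw [hE]
    exact Finset.prod_ne_zero_iff.2 (fun i _ => by have := h.pos i; lia)
  have hΓ : G.Γ (algebraMap R A κ * x l ^ (q * (M - N)) * f ^ E) =
      C (algebraMap R A κ * x l ^ (q * (M - N))) * (X ^ (E * (M - N)) * (G.Γ f) ^ E) := by
    rw [map_mul, map_mul, map_pow, map_pow, h.r0, h.deg, mul_pow, ← pow_mul,
      show e l * (q * (M - N)) = E * (M - N) by rw [hq]; ring, ← C_pow, C_mul]
    ring
  refine ⟨algebraMap R A κ * x l ^ (q * (M - N)) * f ^ E, ?_, ?_, ?_, ?_⟩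
  · exact J.mul_mem_left _ (Ideal.pow_mem_of_mem J hf E (Nat.pos_of_ne_zero hEpos))
  · exact Ideal.mul_mem_right _ _ (Ideal.mul_mem_right _ _ (Ideal.mem_map_of_mem _ hκ))
  · rw [hΓ]
    refine (natDegree_C_mul_le _ _).trans ((natDegree_mul_le).trans ?_)
    have h1 := natDegree_X_pow_le (R := A) (E * (M - N))
    have h2 : (G.Γ f ^ E).natDegree ≤ E * N :=
      (natDegree_pow_le).trans (Nat.mul_le_mul_left E hN)
    have h3 : E * M = E * (M - N) + E * N := by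
      rw [← Nat.mul_add, Nat.sub_add_cancel hM]
    rw [h3]
    exact Nat.add_le_add h1 h2
  · rw [hΓ, coeff_C_mul]
    have h3 : E * M = E * N + E * (M - N) := by
      rw [← Nat.mul_add, Nat.add_sub_cancel' hM]
    rw [h3, coeff_X_pow_mul, coeff_pow_of_natDegree_le hN]
    intro hmem
    rcases hp.mem_or_mem hmem with h4 | h4
    · rcases hp.mem_or_mem h4 with h5 | h5
      · exact hκ' h5
      · exact hl (hp.mem_of_pow_mem _ h5)
    · exact hc (hp.mem_of_pow_mem _ h4)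

/-- an element of `J ∩ 𝔨A` with a good top coefficient -/
theorem hWC : StWC.{u} := by
  intro R A _ _ _ G m x e h 𝔨 hSup J S hS hall D
  have hE1 : 1 ≤ ∏ l, e l := Nat.one_le_iff_ne_zero.2
    (Finset.prod_ne_zero_iff.2 (fun i _ => by have := h.pos i; lia))
  have hev : ∀ᶠ M : ℕ in Filter.atTop, ∀ 𝔤 ∈ S, ∃ F ∈ J, F ∈ 𝔨.map (algebraMap R A) ∧
      (G.Γ F).natDegree ≤ (∏ l, e l) * M ∧ (G.Γ F).coeff ((∏ l, e l) * M) ∉ 𝔤 := by
    rw [Filter.eventually_all_finite hS]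
    intro 𝔤 hg
    obtain ⟨hp, hx, hk, hT⟩ := hall 𝔤 hg
    obtain ⟨N0, hN0⟩ := wc_one R A G m x e h 𝔨 J 𝔤 hp hx hk hT
    exact Filter.eventually_atTop.2 ⟨N0, hN0⟩
  obtain ⟨M, hM, hMD⟩ := (hev.and (Filter.eventually_ge_atTop D)).exists
  choose! F hFJ hFk hFd hFc using hM
  set N := (∏ l, e l) * M with hNdef
  have hDN : D ≤ N := hMD.trans (by rw [hNdef]; exact Nat.le_mul_of_pos_left M hE1)
  haveI : Finite S := hS.to_subtype
  haveI : Fintype S := Fintype.ofFinite S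
  let ν := Fintype.equivFin S
  -- the polynomial
  let g : A[X] := ∑ i : S, C ((G.Γ (F i)).coeff N) * X ^ (ν i : ℕ)
  have hgc : ∀ i : S, g.coeff (ν i : ℕ) = (G.Γ (F i)).coeff N := by
    intro i
    show (∑ i : S, C ((G.Γ (F i)).coeff N) * X ^ (ν i : ℕ)).coeff (ν i : ℕ) = _
    rw [finset_sum_coeff, Finset.sum_eq_single i]
    · rw [coeff_C_mul_X_pow, if_pos rfl]
    · intro j _ hj
      rw [coeff_C_mul_X_pow, if_neg]
      intro hh
      exact hj (ν.injective (Fin.ext hh.symm))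
    · intro hh
      exact absurd (Finset.mem_univ _) hh
  obtain ⟨z, hz, hz1, -⟩ := hSup A A ((fun 𝔤 => (𝔤, g)) '' S) ∅ (hS.image _) Set.finite_empty
    (by
      rintro q ⟨𝔤, hg, rfl⟩
      obtain ⟨hp, hx, hk, hT⟩ := hall 𝔤 hg
      refine ⟨hp, hk, (ν ⟨𝔤, hg⟩ : ℕ), ?_⟩
      show g.coeff _ ∉ 𝔤
      rw [hgc ⟨𝔤, hg⟩]
      exact hFc 𝔤 hg)
    (by
      intro q hq
      exact absurd hq (Set.notMem_empty _))
  have hΓw : G.Γ (∑ i : S, algebraMap R A z ^ (ν i : ℕ) * F i) =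
      ∑ i : S, C (algebraMap R A z ^ (ν i : ℕ)) * G.Γ (F i) := by
    rw [map_sum]
    refine Finset.sum_congr rfl fun i _ => ?_
    rw [map_mul, map_pow, h.r0, ← C_pow]
  refine ⟨∑ i : S, algebraMap R A z ^ (ν i : ℕ) * F i, ?_, ?_, N, hDN, ?_, ?_⟩
  · exact J.sum_mem fun i _ => J.mul_mem_left _ (hFJ i i.2)
  · exact Ideal.sum_mem _ fun i _ => Ideal.mul_mem_left _ _ (hFk i i.2)
  · rw [hΓw]
    exact natDegree_sum_le_of_forall_le _ _ fun i _ =>
      (natDegree_C_mul_le _ _).trans (hFd i i.2)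
  · intro 𝔤 hg
    have h1 := hz1 (𝔤, g) ⟨𝔤, hg, rfl⟩
    have h2 : (G.Γ (∑ i : S, algebraMap R A z ^ (ν i : ℕ) * F i)).coeff N =
        g.eval (algebraMap R A z) := by
      rw [hΓw, finset_sum_coeff]
      show _ = (∑ i : S, C ((G.Γ (F i)).coeff N) * X ^ (ν i : ℕ)).eval (algebraMap R A z)
      rw [eval_finset_sum]
      refine Finset.sum_congr rfl fun i _ => ?_
      rw [coeff_C_mul, eval_mul, eval_C, eval_pow, eval_X, mul_comm]
    rw [h2]
    exact h1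

end Pool.Agent.Helper95.GU2
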